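import Mathlib

/-! # Limits of convolutions with a sequence of exact growth; the sequence with `f (n+3) = f (n+1) + f n` -/

set_option autoImplicit false

namespace Pool.Agent.X191.RL
open Finset Filter Topology

/-- the number of compositions of `n` into odd parts `≥ 3` -/
def free : ℕ → ℕ
  | 0 => 1
  | 1 => 0
  | 2 => 0
  | (n + 3) => free (n + 1) + free n

theorem rho_lt {ρ : ℝ} (h1 : 1 < ρ) (h : ρ ^ 3 = ρ + 1) : ρ < 2 := by
  by_contra hc
  push Not at hc
  nlinarith [mul_self_nonneg (ρ - 2), mul_self_nonneg ρ]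

theorem free_asym {ρ : ℝ} (h1 : 1 < ρ) (h : ρ ^ 3 = ρ + 1) :
    ∃ c : ℝ, 0 < c ∧ Tendsto (fun n => (free n : ℝ) * (1 / ρ) ^ n) atTop (𝓝 c) := by
  have h2 := rho_lt h1 h
  have h0 : ρ ≠ 0 := by positivity
  have hr : ρ * (1 / ρ) = 1 := by field_simp
  set r := 1 / ρ with hrdef
  have hr0 : 0 < r := by positivity
  have hr1 : r < 1 := by rw [hrdef, div_lt_one (by positivity)]; exact h1
  have hrr : ρ ^ 2 = 1 + r := by
    have : ρ * (ρ ^ 2) = ρ * (1 + r) := by
      rw [mul_add, hr]; linarith [h]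
    exact mul_left_cancel₀ h0 this
  set c : ℝ := r / (2 * ρ ^ 2 + r) with hc
  have hc0 : 0 < c := by positivity
  have hcc : c * (2 * ρ ^ 2 + r) = r := by rw [hc]; field_simp
  have hrec : ∀ n, (free (n + 3) : ℝ) = free (n + 1) + free n := fun n => by
    rw [free]; push_cast; ring
  have hg : ∀ n, (free (n + 2) : ℝ) + ρ * free (n + 1) + r * free n = r * ρ ^ n := by
    intro n
    induction n with
    | zero => simp [free]
    | succ n ih =>
      rw [hrec n, pow_succ, ← mul_assoc, ← ih]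
      linear_combination (-(free (n + 1) : ℝ)) * hrr - (free n : ℝ) * hr
  set e : ℕ → ℝ := fun n => free n - c * ρ ^ n with he
  have he2 : ∀ n, e (n + 2) + ρ * e (n + 1) + r * e n = 0 := by
    intro n
    have : c * ρ ^ n * (2 * ρ ^ 2 + r) = r * ρ ^ n := by linear_combination ρ ^ n * hcc
    simp only [he]
    linear_combination hg n - this
  have hQ : ∀ n, e (n + 1) ^ 2 + ρ * e (n + 1) * e n + r * e n ^ 2 = r ^ n * (e 1 ^ 2 + ρ * e 1 * e 0 + r * e 0 ^ 2) := by
    intro n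
    induction n with
    | zero => simp
    | succ n ih =>
      have h3 : e (n + 2) = -(ρ * e (n + 1)) - r * e n := by linarith [he2 n]
      rw [pow_succ, show n + 1 + 1 = n + 2 from rfl, h3]
      linear_combination r * ih
  have hk : 0 < r - ρ ^ 2 / 4 := by
    have h3 : 0 < ρ * (r - ρ ^ 2 / 4) := by
      have : ρ * (r - ρ ^ 2 / 4) = ρ * r - ρ ^ 3 / 4 := by ring
      rw [this, hr, h]; linarith
    exact (mul_pos_iff_of_pos_left (show (0 : ℝ) < ρ by linarith)).1 h3
  set Q0 := e 1 ^ 2 + ρ * e 1 * e 0 + r * e 0 ^ 2 with hQ0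
  have hb : ∀ n, (r - ρ ^ 2 / 4) * e n ^ 2 ≤ |Q0| := by
    intro n
    have h3 : (r - ρ ^ 2 / 4) * e n ^ 2 ≤ r ^ n * Q0 := by
      rw [← hQ n]; nlinarith [sq_nonneg (e (n + 1) + ρ / 2 * e n)]
    refine h3.trans ?_
    calc r ^ n * Q0 ≤ r ^ n * |Q0| := mul_le_mul_of_nonneg_left (le_abs_self _) (by positivity)
      _ ≤ 1 * |Q0| := mul_le_mul_of_nonneg_right (pow_le_one₀ hr0.le hr1.le) (abs_nonneg _)
      _ = |Q0| := one_mul _
  have hb2 : ∀ n, |e n| ≤ |Q0| / (r - ρ ^ 2 / 4) + 1 := by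
    intro n
    have h3 : e n ^ 2 ≤ |Q0| / (r - ρ ^ 2 / 4) := by
      rw [le_div_iff₀ hk]; linarith [hb n]
    rw [abs_le]
    constructor <;> nlinarith [sq_nonneg (e n - 1), sq_nonneg (e n + 1)]
  refine ⟨c, hc0, ?_⟩
  have h4 : ∀ n, (free n : ℝ) * r ^ n = c + e n * r ^ n := by
    intro n
    have : ρ ^ n * r ^ n = 1 := by rw [← mul_pow, hr, one_pow]
    simp only [he]
    linear_combination c * this
  simp_rw [h4]
  have h5 : Tendsto (fun n => e n * r ^ n) atTop (𝓝 0) := by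
    have h6 : Tendsto (fun n => (|Q0| / (r - ρ ^ 2 / 4) + 1) * r ^ n) atTop (𝓝 0) := by
      simpa using (tendsto_pow_atTop_nhds_zero_of_lt_one hr0.le hr1).const_mul (|Q0| / (r - ρ ^ 2 / 4) + 1)
    refine squeeze_zero_norm (fun n => ?_) h6
    rw [norm_mul, norm_pow, Real.norm_eq_abs, Real.norm_of_nonneg hr0.le]
    exact mul_le_mul_of_nonneg_right (hb2 n) (by positivity)
  simpa using h5.const_add c

/-- convolution with a convergent sequence -/
theorem conv_tendsto {a F : ℕ → ℝ} {c : ℝ} (ha : ∀ i, 0 ≤ a i) (hs : Summable a)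
    (hF : Tendsto F atTop (𝓝 c)) :
    Tendsto (fun n => ∑ p ∈ antidiagonal n, a p.1 * F p.2) atTop (𝓝 ((∑' i, a i) * c)) := by
  obtain ⟨B, hB⟩ : ∃ B, ∀ n, |F n| ≤ B := by
    obtain ⟨B, hB⟩ := hF.abs.bddAbove_range
    exact ⟨B, fun n => hB ⟨n, rfl⟩⟩
  have h1 : ∀ n, ∑ p ∈ antidiagonal n, a p.1 * F p.2 = ∑' i, if i ≤ n then a i * F (n - i) else 0 := by
    intro n
    rw [Finset.Nat.sum_antidiagonal_eq_sum_range_succ (fun i j => a i * F j), tsum_eq_sum (s := range (n + 1))]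
    · refine sum_congr rfl fun i hi => ?_
      rw [if_pos (by have := mem_range.1 hi; omega)]
    · intro i hi
      rw [if_neg (by simpa [Nat.lt_succ_iff] using hi)]
  simp_rw [h1]
  rw [← tsum_mul_right]
  refine tendsto_tsum_of_dominated_convergence (bound := fun i => a i * B) (hs.mul_right B) ?_ ?_
  · intro i
    have h2 : Tendsto (fun n => a i * F (n - i)) atTop (𝓝 (a i * c)) :=
      (hF.comp (tendsto_sub_atTop_nat i)).const_mul _
    refine h2.congr' ?_
    filter_upwards [eventually_ge_atTop i] with n hn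
    rw [if_pos hn]
  · refine Eventually.of_forall fun n i => ?_
    by_cases h : i ≤ n
    · rw [if_pos h, norm_mul, Real.norm_of_nonneg (ha i)]
      exact mul_le_mul_of_nonneg_left (hB _) (ha i)
    · rw [if_neg h, norm_zero]
      exact mul_nonneg (ha i) ((abs_nonneg _).trans (hB 0))

theorem conv_atTop {a F : ℕ → ℝ} {c : ℝ} (ha : ∀ i, 0 ≤ a i) (hF0 : ∀ i, 0 ≤ F i) (hs : ¬ Summable a) (hc : 0 < c)
    (hF : Tendsto F atTop (𝓝 c)) :
    Tendsto (fun n => ∑ p ∈ antidiagonal n, a p.1 * F p.2) atTop atTop := by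
  rw [tendsto_atTop]
  intro M
  have h1 := (not_summable_iff_tendsto_nat_atTop_of_nonneg ha).1 hs
  obtain ⟨I, hI⟩ := (h1.eventually (eventually_ge_atTop (M / (c / 2)))).exists
  obtain ⟨J, hJ⟩ := (hF.eventually (eventually_ge_nhds (show c / 2 < c by linarith))).exists_forall_of_atTop
  filter_upwards [eventually_ge_atTop (I + J)] with n hn
  rw [Finset.Nat.sum_antidiagonal_eq_sum_range_succ (fun i j => a i * F j)]
  have h2 : ∑ i ∈ range I, a i * (c / 2) ≤ ∑ i ∈ range (n + 1), a i * F (n - i) := by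
    refine le_trans ?_ (sum_le_sum_of_subset_of_nonneg (range_mono (show I ≤ n + 1 by omega))
      fun i _ _ => mul_nonneg (ha i) (hF0 _))
    refine sum_le_sum fun i hi => mul_le_mul_of_nonneg_left (hJ _ ?_) (ha i)
    have := mem_range.1 hi
    omega
  refine le_trans ?_ h2
  rw [← sum_mul]
  rwa [div_le_iff₀ (by linarith)] at hI

end Pool.Agent.X191.RL
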