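import Mathlib

/-! # Products of the series `(1 - X^w)^(-D w)` with natural coefficients -/

set_option autoImplicit false

namespace Pool.Agent.X191.RL
open Finset PowerSeries

/-- `1 / (1 - X^w)` -/
noncomputable def g (w : ℕ) : PowerSeries ℕ := PowerSeries.mk fun n => if w ∣ n then 1 else 0

/-- the product of the `(1 - X^w)^(-D w)`, `1 ≤ w ≤ N` -/
noncomputable def P (D : ℕ → ℕ) (N : ℕ) : PowerSeries ℕ := ∏ w ∈ Icc 1 N, g w ^ D w

/-- the number of monomials of weight `n` in `D w` variables of weight `w` for each `w` -/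
noncomputable def U (D : ℕ → ℕ) (n : ℕ) : ℕ := coeff n (P D n)

/-- coefficients up to `n` agree -/
def Eq' (n : ℕ) (a b : PowerSeries ℕ) : Prop := ∀ i ≤ n, coeff i a = coeff i b

theorem Eq'.mul {n : ℕ} {a b c d : PowerSeries ℕ} (h : Eq' n a b) (h' : Eq' n c d) : Eq' n (a * c) (b * d) := by
  intro i hi
  rw [coeff_mul, coeff_mul]
  refine sum_congr rfl fun p hp => ?_
  have := mem_antidiagonal.1 hp
  rw [h p.1 (by omega), h' p.2 (by omega)]

theorem Eq'.refl (n : ℕ) (a : PowerSeries ℕ) : Eq' n a a := fun _ _ => rfl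

theorem Eq'.pow {n : ℕ} {a b : PowerSeries ℕ} (h : Eq' n a b) (k : ℕ) : Eq' n (a ^ k) (b ^ k) := by
  induction k with
  | zero => rw [pow_zero, pow_zero]; exact Eq'.refl _ _
  | succ k ih => rw [pow_succ, pow_succ]; exact ih.mul h

theorem g_one {n w : ℕ} (h : n < w) : Eq' n (g w) 1 := by
  intro i hi
  rw [g, coeff_mk, coeff_one]
  rcases Nat.eq_zero_or_pos i with h0 | h0
  · simp [h0]
  · rw [if_neg (by intro h1; have := Nat.le_of_dvd h0 h1; omega), if_neg (by omega)]

theorem P_succ (D : ℕ → ℕ) (N : ℕ) : P D (N + 1) = P D N * g (N + 1) ^ D (N + 1) := by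
  rw [P, P]
  have : Icc 1 (N + 1) = insert (N + 1) (Icc 1 N) := by
    ext; simp only [mem_Icc, mem_insert]; omega
  rw [this, prod_insert (by simp), mul_comm]

theorem P_stable (D : ℕ → ℕ) {n N : ℕ} (h : n ≤ N) : Eq' n (P D N) (P D n) := by
  induction N, h using Nat.le_induction with
  | base => exact Eq'.refl _ _
  | succ N hN ih =>
    rw [P_succ]
    have h1 := ih.mul ((g_one (show n < N + 1 by omega)).pow (D (N + 1)))
    rw [one_pow, mul_one] at h1
    exact h1

theorem coeff_P (D : ℕ → ℕ) {n N : ℕ} (h : n ≤ N) : coeff n (P D N) = U D n := P_stable D h n le_rfl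

theorem U_zero (D : ℕ → ℕ) : U D 0 = 1 := by simp [U, P]

theorem U_add (D E : ℕ → ℕ) (n : ℕ) : U (fun w => D w + E w) n = ∑ p ∈ antidiagonal n, U D p.1 * U E p.2 := by
  have h1 : P (fun w => D w + E w) n = P D n * P E n := by
    rw [P, P, P, ← prod_mul_distrib]
    exact prod_congr rfl fun w _ => pow_add _ _ _
  rw [U, h1, coeff_mul]
  refine sum_congr rfl fun p hp => ?_
  have := mem_antidiagonal.1 hp
  rw [coeff_P D (by omega), coeff_P E (by omega)]

theorem coeff_mul_ge {a b : PowerSeries ℕ} (hb : coeff 0 b = 1) (n : ℕ) : coeff n a ≤ coeff n (a * b) := by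
  rw [coeff_mul]
  refine le_trans ?_ (single_le_sum (fun p _ => Nat.zero_le _) (show (n, 0) ∈ antidiagonal n by simp))
  rw [hb, mul_one]

/-- multiples of `m` get a contribution if `D m ≥ 1` -/
theorem U_ge_g {D : ℕ → ℕ} {m : ℕ} (hm : 1 ≤ m) (h : 1 ≤ D m) (j : ℕ) : 1 ≤ U D (j * m) := by
  rcases Nat.eq_zero_or_pos j with h0 | h0
  · rw [h0, zero_mul, U_zero]
  have hmn : m ≤ j * m := Nat.le_mul_of_pos_left m h0
  have h1 : P D (j * m) = g m * (g m ^ (D m - 1) * ∏ w ∈ (Icc 1 (j * m)).erase m, g w ^ D w) := by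
    rw [P, ← mul_prod_erase _ _ (mem_Icc.2 ⟨hm, hmn⟩), ← mul_assoc, ← pow_succ']
    congr 2
    omega
  have hc : ∀ w k, coeff 0 (g w ^ k) = 1 := by
    intro w k
    rw [coeff_zero_eq_constantCoeff, map_pow]
    have : constantCoeff (g w) = 1 := by
      rw [← coeff_zero_eq_constantCoeff, g, coeff_mk]; simp
    rw [this, one_pow]
  have h2 : coeff 0 (g m ^ (D m - 1) * ∏ w ∈ (Icc 1 (j * m)).erase m, g w ^ D w) = 1 := by
    rw [coeff_zero_eq_constantCoeff, map_mul, map_prod, ← coeff_zero_eq_constantCoeff, hc, one_mul]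
    exact prod_eq_one fun w _ => hc w (D w)
  rw [U, h1]
  refine le_trans ?_ (coeff_mul_ge (a := g m) h2 _)
  rw [g, coeff_mk, if_pos (Nat.dvd_mul_left m j)]

end Pool.Agent.X191.RL
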