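import Mathlib
import Pool.Agent.X191.RL.Series
import Pool.Agent.X191.RL.Lim

/-! # The ratio law -/

set_option autoImplicit false

namespace Pool.Agent.X191.RL
open Finset PowerSeries Filter Topology
open scoped ENNReal

/-- value in `[0, ∞]` of a series with natural coefficients -/
noncomputable def E (r : ℝ≥0∞) (a : PowerSeries ℕ) : ℝ≥0∞ := ∑' i, ((coeff i a : ℕ) : ℝ≥0∞) * r ^ i

theorem E_mul (r : ℝ≥0∞) (a b : PowerSeries ℕ) : E r (a * b) = E r a * E r b := by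
  unfold E
  rw [← ENNReal.tsum_mul_right]
  simp_rw [← ENNReal.tsum_mul_left]
  have h0 := ENNReal.tsum_prod (f := fun i j => ((coeff i a : ℕ) : ℝ≥0∞) * r ^ i * (((coeff j b : ℕ) : ℝ≥0∞) * r ^ j))
  rw [← h0, ← (Finset.HasAntidiagonal.sigmaAntidiagonalEquivProd (A := ℕ)).tsum_eq, ENNReal.tsum_sigma']
  refine tsum_congr fun n => ?_
  rw [tsum_fintype, coeff_mul, Nat.cast_sum, Finset.sum_mul, ← Finset.sum_coe_sort]
  refine Finset.sum_congr rfl fun p _ => ?_
  have h1 := mem_antidiagonal.1 p.2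
  simp only [Finset.HasAntidiagonal.sigmaAntidiagonalEquivProd_apply]
  have h2 : r ^ n = r ^ (p : ℕ × ℕ).1 * r ^ (p : ℕ × ℕ).2 := by rw [← pow_add, h1]
  rw [Nat.cast_mul, h2]
  ring

theorem E_one (r : ℝ≥0∞) : E r 1 = 1 := by
  unfold E
  rw [tsum_eq_single 0]
  · simp
  · intro i hi
    rw [coeff_one, if_neg hi]; simp

theorem E_pow (r : ℝ≥0∞) (a : PowerSeries ℕ) (k : ℕ) : E r (a ^ k) = E r a ^ k := by
  induction k with
  | zero => rw [pow_zero, pow_zero, E_one]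
  | succ k ih => rw [pow_succ, pow_succ, E_mul, ih]

theorem E_g (r : ℝ≥0∞) {w : ℕ} (hw : 1 ≤ w) : E r (g w) = (1 - r ^ w)⁻¹ := by
  unfold E
  rw [← ENNReal.tsum_geometric]
  have hinj : Function.Injective (fun j : ℕ => w * j) := fun a b h => Nat.eq_of_mul_eq_mul_left hw h
  rw [← hinj.tsum_eq (f := fun i => ((coeff i (g w) : ℕ) : ℝ≥0∞) * r ^ i)]
  · refine tsum_congr fun j => ?_
    rw [g, coeff_mk, if_pos (Nat.dvd_mul_right w j), pow_mul]; simp
  · intro i hi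
    by_contra hc
    apply hi
    have h1 : coeff i (g w) = 0 := by
      rw [g, coeff_mk, if_neg]
      rintro ⟨j, rfl⟩
      exact hc ⟨j, rfl⟩
    show ((coeff i (g w) : ℕ) : ℝ≥0∞) * r ^ i = 0
    rw [h1]; simp

theorem E_P (r : ℝ≥0∞) (D : ℕ → ℕ) (N : ℕ) : E r (P D N) = ∏ w ∈ Icc 1 N, (1 - r ^ w)⁻¹ ^ D w := by
  induction N with
  | zero => simp [P, E_one]
  | succ N ih =>
    have : Icc 1 (N + 1) = insert (N + 1) (Icc 1 N) := by
      ext; simp only [mem_Icc, mem_insert]; omega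
    rw [P_succ, E_mul, ih, E_pow, E_g r (by omega), this, prod_insert (by simp), mul_comm]

theorem coeff_P_le (D : ℕ → ℕ) (i N : ℕ) : coeff i (P D N) ≤ U D i := by
  have h1 : ∀ M, N ≤ M → coeff i (P D N) ≤ coeff i (P D M) := by
    intro M hM
    induction M, hM using Nat.le_induction with
    | base => exact le_rfl
    | succ M hM ih =>
      rw [P_succ]
      refine ih.trans (coeff_mul_ge ?_ i)
      rw [coeff_zero_eq_constantCoeff, map_pow]
      have : constantCoeff (g (M + 1)) = 1 := by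
        rw [← coeff_zero_eq_constantCoeff, g, coeff_mk]; simp
      rw [this, one_pow]
  rw [← coeff_P D (le_max_right N i)]
  exact h1 _ (le_max_left N i)

theorem sup_eq (r : ℝ≥0∞) (D : ℕ → ℕ) :
    ⨆ N, ∏ w ∈ Icc 1 N, (1 - r ^ w)⁻¹ ^ D w = ∑' i, (U D i : ℝ≥0∞) * r ^ i := by
  apply le_antisymm
  · refine iSup_le fun N => ?_
    rw [← E_P]
    exact ENNReal.tsum_le_tsum fun i => mul_le_mul_left (by exact_mod_cast coeff_P_le D i N) _
  · rw [ENNReal.tsum_eq_iSup_nat]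
    refine iSup_le fun N => ?_
    refine le_trans ?_ (le_iSup _ N)
    rw [← E_P]
    refine le_trans (le_of_eq ?_) (ENNReal.sum_le_tsum (range N))
    refine sum_congr rfl fun i hi => ?_
    rw [coeff_P D (mem_range.1 hi).le]

theorem U_split {D l : ℕ → ℕ} (h : ∀ w, 1 ≤ w → l w ≤ D w) (n : ℕ) :
    U D n = ∑ p ∈ antidiagonal n, U (fun w => D w - l w) p.1 * U l p.2 := by
  rw [← U_add]
  unfold U P
  congr 1
  refine prod_congr rfl fun w hw => ?_
  show g w ^ D w = g w ^ (D w - l w + l w)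
  rw [Nat.sub_add_cancel (h w (mem_Icc.1 hw).1)]

/-- the limit of the ratio -/
theorem ratio {D l : ℕ → ℕ} (hl : ∀ n, U l n = free n) (h : ∀ w, 1 ≤ w → l w ≤ D w) {ρ : ℝ} (h1 : 1 < ρ)
    (hρ : ρ ^ 3 = ρ + 1) :
    Tendsto (fun n => (U D n : ℝ≥0∞) / (free n : ℝ≥0∞)) atTop
      (𝓝 (⨆ N, ∏ w ∈ Icc 1 N, (1 - ENNReal.ofReal (1 / ρ) ^ w)⁻¹ ^ (D w - l w))) := by
  rw [sup_eq]
  obtain ⟨c, hc, hF⟩ := free_asym h1 hρ
  have hr0 : (0 : ℝ) < 1 / ρ := by positivity
  set r := 1 / ρ with hr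
  set q := U (fun w => D w - l w) with hq
  have hsplit : ∀ n, (U D n : ℝ) * r ^ n = ∑ p ∈ antidiagonal n, ((q p.1 : ℝ) * r ^ p.1) * ((free p.2 : ℝ) * r ^ p.2) := by
    intro n
    rw [U_split h n, Nat.cast_sum, sum_mul]
    refine sum_congr rfl fun p hp => ?_
    rw [← mem_antidiagonal.1 hp, hl, Nat.cast_mul, pow_add]
    ring
  have hpos : ∀ᶠ n in atTop, 0 < (free n : ℝ) := by
    filter_upwards [hF.eventually (eventually_gt_nhds hc)] with n hn
    exact (pos_iff_pos_of_mul_pos hn).2 (by positivity)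
  have hratio : ∀ᶠ n in atTop, (U D n : ℝ≥0∞) / (free n : ℝ≥0∞) =
      ENNReal.ofReal ((∑ p ∈ antidiagonal n, ((q p.1 : ℝ) * r ^ p.1) * ((free p.2 : ℝ) * r ^ p.2)) /
        ((free n : ℝ) * r ^ n)) := by
    filter_upwards [hpos] with n hn
    rw [← hsplit, mul_div_mul_right _ _ (by positivity), ENNReal.ofReal_div_of_pos hn, ENNReal.ofReal_natCast,
      ENNReal.ofReal_natCast]
  rw [tendsto_congr' hratio]
  have hqr : ∀ i, (q i : ℝ≥0∞) * ENNReal.ofReal r ^ i = ENNReal.ofReal ((q i : ℝ) * r ^ i) := by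
    intro i
    rw [ENNReal.ofReal_mul (Nat.cast_nonneg _), ENNReal.ofReal_natCast, ENNReal.ofReal_pow hr0.le]
  simp_rw [hqr]
  have ha : ∀ i, 0 ≤ (q i : ℝ) * r ^ i := fun i => by positivity
  by_cases hs : Summable fun i => (q i : ℝ) * r ^ i
  · rw [← ENNReal.ofReal_tsum_of_nonneg ha hs]
    have h2 := (conv_tendsto ha hs hF).div hF hc.ne'
    rw [mul_div_cancel_right₀ _ hc.ne'] at h2
    exact (ENNReal.continuous_ofReal.tendsto _).comp h2
  · have h3 : ∑' i, ENNReal.ofReal ((q i : ℝ) * r ^ i) = ∞ := by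
      by_contra hne
      exact hs ((ENNReal.summable_toReal hne).congr fun i => ENNReal.toReal_ofReal (ha i))
    rw [h3]
    have h2 := conv_atTop ha (fun i => by positivity) hs hc hF
    refine ENNReal.tendsto_ofReal_atTop.comp ?_
    have h4 : Tendsto (fun n => 1 / ((free n : ℝ) * r ^ n)) atTop (𝓝 (1 / c)) :=
      (tendsto_const_nhds (x := (1 : ℝ))).div hF hc.ne'
    refine (h2.atTop_mul_pos (show 0 < 1 / c by positivity) h4).congr fun n => ?_
    rw [mul_one_div]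

section
variable {D l : ℕ → ℕ} (hl : ∀ n, U l n = free n) (h : ∀ w, 1 ≤ w → l w ≤ D w)
include hl h

theorem free_le (n : ℕ) : free n ≤ U D n := by
  rw [U_split h n, ← hl n]
  refine le_trans ?_ (single_le_sum (fun p _ => Nat.zero_le _) (show (0, n) ∈ antidiagonal n by simp))
  rw [U_zero, one_mul]

/-- an extra generator of weight `m` -/
theorem sum_le {m : ℕ} (hm : 1 ≤ m) (hlt : l m < D m) (n : ℕ) :
    ∑ j ∈ range (n / m + 1), free (n - j * m) ≤ U D n := by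
  rw [U_split h n]
  have hinj : Set.InjOn (fun j => (j * m, n - j * m)) (range (n / m + 1) : Set ℕ) := by
    intro a _ b _ hab
    exact Nat.eq_of_mul_eq_mul_right hm (Prod.ext_iff.1 hab).1
  have hsub : (range (n / m + 1)).image (fun j => (j * m, n - j * m)) ⊆ antidiagonal n := by
    intro p hp
    obtain ⟨j, hj, rfl⟩ := mem_image.1 hp
    rw [HasAntidiagonal.mem_antidiagonal]
    have h1 : j ≤ n / m := by have := mem_range.1 hj; omega
    have h2 : j * m ≤ n := (Nat.mul_le_mul_right m h1).trans (Nat.div_mul_le_self n m)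
    show j * m + (n - j * m) = n
    omega
  refine le_trans ?_ (sum_le_sum_of_subset hsub)
  rw [sum_image hinj]
  refine sum_le_sum fun j _ => ?_
  rw [← hl]
  have h3 := U_ge_g (D := fun w => D w - l w) hm (show 1 ≤ D m - l m by omega) j
  exact le_trans (le_of_eq (one_mul _).symm) (Nat.mul_le_mul_right _ h3)

theorem one_weight {n : ℕ} (hn : U D n = free n) {w : ℕ} (hw : 1 ≤ w) (hwn : w ≤ n) (hf : free (n - w) ≠ 0) :
    D w = l w := by
  by_contra hne
  have hlt : l w < D w := lt_of_le_of_ne (h w hw) (Ne.symm hne)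
  have h1 := sum_le hl h hw hlt n
  have h2 : ∑ j ∈ ({0, 1} : Finset ℕ), free (n - j * w) ≤ ∑ j ∈ range (n / w + 1), free (n - j * w) := by
    refine sum_le_sum_of_subset fun j hj => ?_
    have : 1 ≤ n / w := (Nat.one_le_div_iff hw).2 hwn
    rw [mem_insert, mem_singleton] at hj
    rw [mem_range]
    omega
  rw [sum_pair (by norm_num), zero_mul, Nat.sub_zero, one_mul] at h2
  omega

omit hl h in
theorem sup_ge {r : ℝ≥0∞} {m : ℕ} (hm : 1 ≤ m) (hlt : l m < D m) :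
    (1 - r ^ m)⁻¹ ≤ ⨆ N, ∏ w ∈ Icc 1 N, (1 - r ^ w)⁻¹ ^ (D w - l w) := by
  refine le_trans ?_ (le_iSup _ m)
  have h1 : ∀ w, (1 : ℝ≥0∞) ≤ (1 - r ^ w)⁻¹ := fun w => ENNReal.one_le_inv.2 tsub_le_self
  rw [← mul_prod_erase _ _ (mem_Icc.2 ⟨hm, le_rfl⟩)]
  have h2 : (1 : ℝ≥0∞) ≤ ∏ w ∈ (Icc 1 m).erase m, (1 - r ^ w)⁻¹ ^ (D w - l w) :=
    Finset.one_le_prod' fun w _ => one_le_pow₀ (h1 w)
  calc (1 - r ^ m)⁻¹ = (1 - r ^ m)⁻¹ ^ 1 * 1 := by rw [pow_one, mul_one]
    _ ≤ (1 - r ^ m)⁻¹ ^ (D m - l m) * ∏ w ∈ (Icc 1 m).erase m, (1 - r ^ w)⁻¹ ^ (D w - l w) :=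
      mul_le_mul' (pow_le_pow_right₀ (h1 m) (by omega)) h2

end

theorem free_pos {n : ℕ} (hn : 5 ≤ n) : 0 < free n := by
  induction n using Nat.strong_induction_on with
  | _ n ih =>
    rcases Nat.lt_or_ge n 8 with h | h
    · interval_cases n <;> decide
    · obtain ⟨k, rfl⟩ : ∃ k, n = k + 3 := ⟨n - 3, by omega⟩
      rw [free]
      have := ih k (by omega) (by omega)
      omega

end Pool.Agent.X191.RL
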